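import Mathlib
import Pool.Agent.N70.ES.VocWB
import Pool.Agent.N70.EP.RealB
import Pool.Agent.V5helper98.ML.Small
import Pool.Agent.V5helper98.ML.Iff
import Pool.Prelude.Def_F_b1b78ff3

/-!
# Malle's conjecture for `C₂ ≀ X` and the class `StepClass` of homomorphisms `X → Y`

The definitions are in the files `Voc.lean`, `VocC.lean` of `Pool/Agent/N70/EP`, `VocK.lean` of
`Pool/Agent/N70/EQ`, `VocE.lean` of `Pool/Agent/N70/EO`, `VocW.lean` of `Pool/Agent/N70/ES`,
`ClsDef.lean` of `Pool/Agent/TH444/TW` and `Voc.lean`, `VocU.lean` of `Pool/Agent/V5helper98/ML`: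

* For a homomorphism `α : B → W` and a character `χ : W → {1, -1}`, `TwPow α χ n` is the group of all
  `(x, ρ)` with `x` in the wreath product `B ≀ S_n`, `ρ` in `W`, such that `α` maps all coordinates
  of `x` to `ρ` and the sign of the permutation of `x` is `χ ρ`; `twPr α χ n (x, ρ) = ρ`. The kernel
  of `twPr α χ n` is `(ker α) ≀ A_n`.
* `IsSplittingIndex α I`: `I` is the greatest common divisor of the indices of the subgroups of `W`
  over which `α` splits.
* `AlmostAllNumbers A`: the number of the `n < x` without the property `A` is `o(x)`.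
* `TwGood α I n χ`: the projection `twPr α χ n` splits, or `I` is odd and divides `n`, or `χ = 1` and
  `2 I` divides `n`.
* `LargeHom A₁`: if `α : B → W` is a surjective homomorphism of finite groups, with any kernel, of
  index `I`, then for almost all `n` the set `A₁ α χ` contains `n` for all characters `χ` with
  `TwGood α I n χ`.
* `Large A₂ S`: for every nontrivial finite group `G` with trivial centre and `OuterIndex G D` the set
  `S G` contains all large multiples of `D`, and `A₂ G` contains almost all multiples of `D` if `D`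
  is odd.
* `KerClass A₂ S` is the smallest class of groups which contains, for all nontrivial finite groups `G`
  with trivial centre, the groups `G ≀ A_n` for all `n` in `A₂ G` and the groups `G ≀ S_n` for all `n`
  in `S G`, and the complete groups which are regular Galois groups over `ℚ(t)`, and which is closed
  under finite direct products, direct factors, characteristic extensions and `T ↦ T ≀ S_n`
  (`n ≥ 2 (|T| + 2)`).
* `StepClass A₁ A₂ S` is the smallest class of homomorphisms which contains the class `Cls ℚ` of the
  starting results (for example all split epimorphisms with a finite abelian kernel), all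
  `twPr α χ n` with `n` in `A₁ α χ`, and all epimorphisms, split or not, with a kernel in the class
  `KerClass A₂ S`, and which is closed under composition and quotients.
* `SmallDegree X`: `X` has a faithful transitive permutation representation of degree `u` with
  `8 u (u + 1) ≤ |X|`; `SmallIndex T`: `T` has one with `256 u ^ 4 ≤ |T|`.
* `MalleIff X Y`: over each number field `K` the asymptotic formula `N(K, C₂ ≀ X; B) ~ c B`, `c > 0`,
  holds if `Y` is a Galois group over `K`, and `N(K, C₂ ≀ X; B) = 0` for all `B` otherwise; so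
  Malle's conjecture for `C₂ ≀ X` over all number fields is the inverse Galois problem for `Y` over
  all number fields.

The theorem: there are sets `A₁ α χ`, `A₂ G`, `S G` of natural numbers with `LargeHom A₁` and
`Large A₂ S` such that

1. for all finite groups `X`, `Y` and all surjective homomorphisms `X → Y` in the class
   `StepClass A₁ A₂ S`: if `SmallDegree X`, then Malle's conjecture for `C₂ ≀ X` is equivalent to the
   inverse Galois problem for `Y` (`MalleIff X Y`); if moreover `Y = 1`, then Malle's conjecture holds
   for `C₂ ≀ X` over all number fields;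
2. this applies to all finite groups `X` with a normal subgroup `N` in the class `KerClass A₂ S` with
   `SmallIndex N` and `|X / N| ^ 2 ≤ |N|`: Malle's conjecture for `C₂ ≀ X` is equivalent to the inverse
   Galois problem for `X / N`, and to that for `Y` if `X / N → Y` is surjective and in the class;
3. for every surjective homomorphism `α : B → W` of finite groups of index `I`, Malle's conjecture for
   `C₂ ≀ TwPow α χ n` is equivalent to the inverse Galois problem for `W`, for almost all `n` and all
   characters `χ` with `TwGood α I n χ`.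

All `G ≀ S_n`, `n ≥ 10`, all `G ≀ A_n`, `n ≥ 11`, and all finite direct products of groups with
`SmallIndex` have the property `SmallIndex`.
-/

set_option autoImplicit false

open Nfff32c05 (IsRealizable)
open Pool.Agent.N70.EP.Voc
open Pool.Agent.N70.EQ.Voc (KerClass)
open Pool.Agent.N70.EO.Voc (AlmostAllNumbers Large StepClass)
open Pool.Agent.N70.ES.Voc
open Pool.Agent.V5helper98.ML

namespace Pool.Agent.Results.MP_a3214d_nt.UniversalKernels

/-- Homomorphisms in the class preserve and reflect Galois groups over number fields. -/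
theorem step_iff {X Y : Type} [Group X] [Group Y] [Finite Y] (p : X →* Y)
    (hp : Function.Surjective p)
    (h : StepClass (fun _ _ _ _ α χ => Pool.Agent.N70.EO.setC α χ)
      (fun G _ => Pool.Agent.N70.EP.setA G) (fun G _ => Pool.Agent.N70.EQ.setS G) p)
    (K : Type) [Field K] [NumberField K] : IsRealizable K X ↔ IsRealizable K Y := by
  obtain ⟨h1, h2⟩ := Pool.Agent.N70.EO.step_main8 _ _ _
    (fun _ _ _ _ _ _ _ h => h) (fun _ _ _ h => h) (fun _ _ _ h => h) h ‹Finite Y›
  exact Pool.Agent.N70.EP.real_rsk_iff p hp h2 K (Pool.Agent.H391R2.T4.hilb_numberField K)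

/-- The trivial group. -/
theorem real_one (K : Type) [Field K] (Y : Type) [Group Y] [Subsingleton Y] :
    IsRealizable K Y := by
  have h1 : ∀ σ : K ≃ₐ[K] K, σ = 1 := fun σ => by
    ext x
    exact σ.commutes x
  have h2 : Subsingleton (K ≃ₐ[K] K) := ⟨fun a b => (h1 a).trans (h1 b).symm⟩
  exact Pool.Agent.H391R2.isRealizable_of K
    (MulEquiv.mk' (equivOfSubsingletonOfSubsingleton (fun _ => 1) (fun _ => 1))
      (fun _ _ => Subsingleton.elim _ _))

end Pool.Agent.Results.MP_a3214d_nt.UniversalKernels

open Pool.Agent.Results.MP_a3214d_nt.UniversalKernels in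
theorem Pool.Agent.Results.MP_a3214d_nt.UniversalKernels.result :
    (∃ (A₁ : ∀ (W B : Type) [Group W] [Group B], (B →* W) → (W →* ℤˣ) → Set ℕ)
      (A₂ S : ∀ (G : Type) [Group G], Set ℕ), LargeHom A₁ ∧ Large A₂ S ∧
      (∀ (X Y : Type) [Group X] [Finite X] [Group Y] [Finite Y] (p : X →* Y),
        Function.Surjective p → StepClass A₁ A₂ S p → SmallDegree X →
          MalleIff X Y ∧ (Subsingleton Y → MalleAll X)) ∧
      ∀ (X : Type) [Group X] [Finite X] (N : Subgroup X) [N.Normal], KerClass A₂ S N →
        SmallIndex N → Nat.card (X ⧸ N) ^ 2 ≤ Nat.card N →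
        SmallDegree X ∧ MalleIff X (X ⧸ N) ∧
        ∀ (Y : Type) [Group Y] [Finite Y] (p : X ⧸ N →* Y), Function.Surjective p →
          StepClass A₁ A₂ S p → MalleIff X Y ∧ (Subsingleton Y → MalleAll X)) ∧
    (∀ (W B : Type) [Group W] [Finite W] [Group B] [Finite B] (α : B →* W),
      Function.Surjective α → ∀ I : ℕ, IsSplittingIndex α I →
        AlmostAllNumbers (fun n => ∀ χ : W →* ℤˣ, TwGood α I n χ → MalleIff (TwPow α χ n) W)) ∧
    (∀ (G : Type) [Group G] [Finite G] (n : ℕ), (10 ≤ n → SmallIndex (Wreath G n)) ∧
      (11 ≤ n → SmallIndex (AltWreath G n))) ∧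
    ∀ (J : Type) [Finite J] [Nonempty J] (T : J → Type) [∀ j, Group (T j)],
      (∀ j, SmallIndex (T j)) → SmallIndex (∀ j, T j) := by
  have key : ∀ (X Y : Type) [Group X] [Finite X] [Group Y] [Finite Y] (p : X →* Y),
      Function.Surjective p →
      StepClass (fun _ _ _ _ α χ => Pool.Agent.N70.EO.setC α χ)
        (fun G _ => Pool.Agent.N70.EP.setA G) (fun G _ => Pool.Agent.N70.EQ.setS G) p →
      SmallDegree X → MalleIff X Y ∧ (Subsingleton Y → MalleAll X) := by
    intro X Y _ _ _ _ p hp h hX
    have h1 : MalleIff X Y := malleIff_of (data_of_small hX) fun K _ _ => step_iff p hp h K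
    exact ⟨h1, fun hY => h1.2.2.2 fun K _ _ => real_one K Y⟩
  refine ⟨⟨fun _ _ _ _ α χ => Pool.Agent.N70.EO.setC α χ,
    fun G _ => Pool.Agent.N70.EP.setA G, fun G _ => Pool.Agent.N70.EQ.setS G,
    Pool.Agent.N70.ES.largeHom9, Pool.Agent.N70.EO.large8, key, ?_⟩, ?_,
    fun G _ _ n => ⟨small_wreath G n, small_altWreath G n⟩, fun J _ _ T _ h => SmallIndex.prod T h⟩
  · intro X _ _ N _ hN hs hc
    have hd : SmallDegree X := small_degree N hs inferInstance hc
    have h1 : StepClass (fun _ _ _ _ α χ => Pool.Agent.N70.EO.setC α χ)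
        (fun G _ => Pool.Agent.N70.EP.setA G) (fun G _ => Pool.Agent.N70.EQ.setS G)
        (QuotientGroup.mk' N) := by
      refine StepClass.kernel _ (QuotientGroup.mk'_surjective N) ?_
      exact KerClass.iso _ _ (MulEquiv.subgroupCongr (QuotientGroup.ker_mk' N)).symm hN
    refine ⟨hd, (key X (X ⧸ N) _ (QuotientGroup.mk'_surjective N) h1 hd).1, ?_⟩
    intro Y _ _ p hp hY
    exact key X Y (p.comp (QuotientGroup.mk' N)) (hp.comp (QuotientGroup.mk'_surjective N))
      (StepClass.comp _ _ hY h1) hd
  · intro W B _ _ _ _ α hα I hI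
    have h1 := Pool.Agent.N70.ES.largeHom9 W B α hα I hI
    have h2 := Pool.Agent.N70.EO.aan_and h1 (Pool.Agent.N70.EO.aan_large (A := fun n => 11 ≤ n ∧
      2 * Nat.card W ^ 2 ≤ n) (11 + 2 * Nat.card W ^ 2) (fun n hn => ⟨by omega, by omega⟩))
    refine Pool.Agent.N70.EO.aan_mono h2 ?_
    rintro n ⟨h3, h4, h5⟩ χ hχ
    have h6 := h3 χ hχ
    have hfin : Finite (Wreath B n) := Pool.Agent.H391R2.T4.finite_wr B n
    have hfX : Finite (TwPow α χ n) := inferInstance
    have hsurj : Function.Surjective (twPr α χ n) :=
      Pool.Agent.N70.EP.twPr_surj α hα χ n (by omega)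
    have hker : SmallIndex (twPr α χ n).ker :=
      SmallIndex.iso (kerTw α χ n).symm (small_altWreath α.ker n h4)
    have hcard : Nat.card (TwPow α χ n ⧸ (twPr α χ n).ker) = Nat.card W :=
      Nat.card_congr (QuotientGroup.quotientKerEquivOfSurjective _ hsurj).toEquiv
    have hc : Nat.card (TwPow α χ n ⧸ (twPr α χ n).ker) ^ 2 ≤ Nat.card (twPr α χ n).ker := by
      rw [hcard, Nat.card_congr (kerTw α χ n).toEquiv]
      have h7 : 2 * Nat.card (AltWreath α.ker n) = Nat.card α.ker ^ n * n.factorial :=
        Pool.Agent.Y793.awr_card α.ker n (by omega)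
      have h8 : 1 ≤ Nat.card α.ker ^ n := Nat.one_le_pow _ _ Nat.card_pos
      have h9 := Nat.self_le_factorial n
      nlinarith
    exact (key _ _ (twPr α χ n) hsurj (StepClass.alternating α χ n h6)
      (small_degree _ hker inferInstance hc)).1
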