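import Mathlib
import Pool.Agent.V5helper98.ML.Wreath

/-!
# Malle's conjecture for `C₂ ≀ X`, `X` any extension by a product of wreath products `G_i ≀ S_{n_i}`

Let `G_i` (`i` in a finite nonempty set) be ARBITRARY nontrivial finite groups with trivial centre,
`n_i ≥ ((3 |G_i| + 2)!)^3`, and let `X` be a group with a normal subgroup `N` which is isomorphic to
the direct product of the wreath products `G_i ≀ S_{n_i}`, such that `|X / N| ^ 2 ≤ |N|`. There is no
condition on the extension `1 → N → X → X / N → 1`: it may permute the factors and need not split.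
`X` acts on itself by multiplication, and `C₂ ≀ X` is a transitive permutation group on
`X × {0, 1}`.

1. If all Sylow subgroups of `X / N` are cyclic (for example `X = N`, or `X / N` of squarefree order),
   then Malle's conjecture holds for `C₂ ≀ X` over all number fields.
2. There are a finite group `Q` and a surjection `Q → X / N` with kernel in the Frattini subgroup of
   `Q` such that the asymptotic formula `N(K, C₂ ≀ X; B) ~ c B` holds over all number fields `K` over
   which `Q` is a Galois group; only primes dividing `|X / N|` divide `|Q|`, and `Q` is solvable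
   (nilpotent) if `X / N` is.
3. In each of the following cases Malle's conjecture for `C₂ ≀ X` is equivalent to the inverse Galois
   problem for `X / N`: over each number field `K` the formula `N(K, C₂ ≀ X; B) ~ c B` with `c > 0`
   holds if `X / N` is a Galois group over `K`, and `N(K, C₂ ≀ X; B) = 0` for all `B` otherwise.
   (a) For every `i` the inner automorphisms of `G_i` have a complement in `Aut G_i` (any extension),
   (b) `G_i = H_i ≀ S_{m_i}`, `H_i` an arbitrary nontrivial finite group with trivial centre,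
       `m_i ≥ 2 (|H_i| + 2)` a multiple of `|Out H_i|` (any extension),
   (c) the order of the group of outer automorphisms of `N` induced by `X` is prime to all `|G_i|`,
   (d) the extension splits and `n_i ≥ ((3 |G_i| |X / N| + 2)!)^3`.
-/

set_option autoImplicit false

open Nfff32c05 (IsRealizable)
open Pool.Agent.H391R2 (Wr)
open Pool.Agent.V5helper98.ML

namespace Pool.Agent.Results.MP_a3214d_nt.WreathProductKernels

/-- (a) The inner automorphisms of all `G i` have complements in the automorphism groups. -/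
def Complemented {I : Type} (G : I → Type) [∀ i, Group (G i)] : Prop :=
  ∀ i, ∃ C : Subgroup (MulAut (G i)), IsCompl C (MulAut.conj : G i →* MulAut (G i)).range

/-- (b) All `G i` are wreath products `H ≀ S_m`, `H` a nontrivial finite group with trivial centre,
`m ≥ 2 (|H| + 2)` a multiple of the order of `Out H`. -/
def Double {I : Type} (G : I → Type) [∀ i, Group (G i)] : Prop :=
  ∀ i, ∃ (H : Type) (_ : Group H) (m : ℕ), Finite H ∧ Nontrivial H ∧ Subgroup.center H = ⊥ ∧
    2 * (Nat.card H + 2) ≤ m ∧ (MulAut.conj : H →* MulAut H).range.index ∣ m ∧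
    Nonempty (G i ≃* Wr H m)

/-- (c) The order of the group of outer automorphisms of `N` induced by `X`, that is, the index of
`N · C_X(N)`, is prime to all `|G i|`. -/
def Coprime {X : Type} [Group X] (N : Subgroup X) {I : Type} (G : I → Type) : Prop :=
  ∀ i, Nat.Coprime (N ⊔ Subgroup.centralizer (N : Set X)).index (Nat.card (G i))

/-- (d) `N` has a complement in `X`, and the numbers `n i` are at least
`((3 |G i| |X / N| + 2)!) ^ 3`. -/
def Split {X : Type} [Group X] (N : Subgroup X) {I : Type} (G : I → Type) (n : I → ℕ) : Prop :=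
  (∃ Q : Subgroup X, N ⊔ Q = ⊤ ∧ N ⊓ Q = ⊥) ∧
    ∀ i, ((3 * (Nat.card (G i) * Nat.card (X ⧸ N)) + 2).factorial) ^ 3 ≤ n i

/-- The reduction to a Frattini cover `Q` of `Y`. -/
def CoverTheorem (X Y : Type) [Group X] [Group Y] : Prop :=
  ∃ (Q : Type) (_ : Group Q) (_ : Finite Q) (π : Q →* Y),
    Function.Surjective π ∧ π.ker ≤ frattini Q ∧
    (∀ (K : Type) [Field K] [NumberField K], IsRealizable K Q → MalleOver K X) ∧
    (Group.IsSolvable Y → Group.IsSolvable Q) ∧ (Group.IsNilpotent Y → Group.IsNilpotent Q) ∧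
    (∀ p : ℕ, p.Prime → p ∣ Nat.card Q → p ∣ Nat.card Y)

end Pool.Agent.Results.MP_a3214d_nt.WreathProductKernels

open Pool.Agent.Results.MP_a3214d_nt.WreathProductKernels in
theorem Pool.Agent.Results.MP_a3214d_nt.WreathProductKernels.result :
    ∀ (I : Type) [Finite I] [Nonempty I] (G : I → Type) [∀ i, Group (G i)] [∀ i, Finite (G i)]
      [∀ i, Nontrivial (G i)] (n : I → ℕ), (∀ i, Subgroup.center (G i) = ⊥) →
      (∀ i, ((3 * Nat.card (G i) + 2).factorial) ^ 3 ≤ n i) →
      ∀ (X : Type) [Group X] (N : Subgroup X) [N.Normal],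
        Nonempty (N ≃* ∀ i, Wr (G i) (n i)) → Finite (X ⧸ N) →
        Nat.card (X ⧸ N) ^ 2 ≤ Nat.card N →
        (IsZGroup (X ⧸ N) → MalleAll X) ∧
        CoverTheorem X (X ⧸ N) ∧
        (Complemented G ∨ Double G ∨ Coprime N G ∨ Split N G n → MalleIff X (X ⧸ N)) := by
  intro I _ _ G _ _ _ n hZ hn X _ N _ hN hfin hc
  have hd := dat hn X N hN hfin hc
  have hfinT : ∀ i, Finite (Wr (G i) (n i)) := fun i => Pool.Agent.H391R2.T4.finite_wr (G i) (n i)
  refine ⟨fun hz => all_z hZ hn X N hN hfin hc hz, ?_, ?_⟩
  · obtain ⟨Q, i1, i2, π, hπ, hQ⟩ := Pool.Agent.N600.ZQ.frat_main hZ hn X N hN hfin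
    exact ⟨Q, i1, i2, π, hπ.1, hπ.2, fun K _ _ hK => over_of_real K hd (hQ.1 K hK),
      hπ.solvable, hπ.nilpotent, hπ.prime⟩
  · rintro (h | h | h | ⟨⟨Q, hQ1, hQ2⟩, hb⟩)
    · refine iff_univ hn X N hN hfin hc (Pool.Agent.N600.UK.Univ.prod I _ fun i => ?_)
      exact Pool.Agent.N600.UK.Univ.wreath (G i) (hZ i) (h i) (n i) (hn i)
    · refine iff_univ hn X N hN hfin hc (Pool.Agent.N600.UK.Univ.prod I _ fun i => ?_)
      obtain ⟨H, _, m, h1, h2, h3, h4, h5, ⟨e⟩⟩ := h i
      have hcard : Nat.card (G i) = Nat.card (Wr H m) := Nat.card_congr e.toEquiv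
      have h6 := Pool.Agent.N600.UK.Univ.double H h3 m h4 h5 (n i) (by rw [← hcard]; exact hn i)
      exact Pool.Agent.N600.UK.Univ.iso _ _ (wrCongr e.symm (n i)) h6
    · exact iff_cop hZ hn X N hN hfin hc h
    · refine iff_split hZ X N hN hfin hc Q hQ1 hQ2 fun i => ?_
      rw [card_compl N Q hQ1 hQ2]
      exact hb i
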